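import Pool.Agent.Y192.KC.PStm
import Pool.Agent.Y220.KG.Core

/-!
Curves near infinity in closed subsets of tori (helper32, job KP1 of helper192).
-/

set_option autoImplicit false

namespace Pool.Agent.Y32.KP

open Filter Topology Metric Set Pool.Agent.Y192.OG Pool.Agent.Y192.KC Pool.Agent.W603.BP
open Pool.Agent.Y220.KG

section curve

variable {N : ℕ} (c : Curve N)

theorem xf_ne' {z : ℂ} (hz : z ∈ c.U) (i : Fin N) : c.xf i z ≠ 0 := c.xf_ne i hz

/-- the zeros of a nonzero element of the ring -/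
theorem val_zeros {f : c.Mr} (hf : f ≠ 0) : {z | z ∈ c.U ∧ c.val f z = 0}.Countable := by
  refine (HereditarilyLindelofSpace.isLindelof _).countable_of_isDiscrete ?_
  rw [isDiscrete_iff_nhdsNE]
  intro z hz
  rw [← disjoint_iff, Filter.disjoint_principal_right]
  rcases (c.val_an f z hz.1).eventually_eq_zero_or_eventually_ne_zero with h | h
  · exfalso
    refine (Pool.Agent.Y192.OG.a_ring N c).2.2.2 f hf z hz.1.1 ?_
    unfold Curve.ord
    rw [meromorphicOrderAt_eq_top_iff]
    exact h.filter_mono nhdsWithin_le_nhds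
  · filter_upwards [h] with w hw
    exact fun h' => hw h'.2

theorem val_zero (z : ℂ) : c.val 0 z = 0 := val_zero' c z

/-- replacing some of the functions by one -/
theorem adm_one {r m : ℕ} {F F' : Fin r → Lau N} {e : Fin r → ℕ} (hU : AdmG F e m c)
    (hF' : ∀ j, F' j = F j ∨ F' j = 1) : AdmG F' e m c := by
  refine ⟨hU.div, fun j hne z hzE => ?_⟩
  rcases hF' j with h | h
  · rw [h] at hne ⊢
    exact hU.root j hne z hzE
  · rw [h, map_one]
    refine ⟨0, ?_⟩
    rw [mul_zero]
    have h2 : c.val 1 =ᶠ[𝓝[≠] z] fun _ => (1 : ℂ) := by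
      filter_upwards [c.U_punct hzE] with w hw
      exact c.val_one hw
    unfold Curve.ord
    rw [meromorphicOrderAt_congr h2]
    exact (tendsto_ne_zero_iff_meromorphicOrderAt_eq_zero (MeromorphicAt.const 1 z)).1
      ⟨1, one_ne_zero, tendsto_const_nhds⟩

/-- the curve extends to infinity if all the monomials are meromorphic at infinity -/
theorem extC_of (h : ∀ γ, MInf c γ) : ExtC c := by
  intro i
  refine Fin.cases ?_ (fun i => ?_) i
  · exact ⟨fun _ => 1, MeromorphicAt.const 1 0, 0, fun z _ => by rw [one_mul]⟩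
  · obtain ⟨S, hS, R0, hR0⟩ := h (Pi.single i 1)
    refine ⟨S, hS, ?_⟩
    -- `S` is analytic near infinity
    have h1 := hS.eventually_analyticAt
    rw [eventually_nhdsWithin_iff] at h1
    obtain ⟨ε, hε, h2⟩ := Metric.eventually_nhds_iff.1 h1
    have hS2 : ∀ z, ε⁻¹ < ‖z‖ → AnalyticAt ℂ S z := by
      intro z hz
      have hz0 : z ≠ 0 := by
        rintro rfl
        rw [norm_zero] at hz
        exact absurd hz (not_lt.2 (inv_pos.2 hε).le)
      have h3 : AnalyticAt ℂ (fun w => S w⁻¹) z⁻¹ := by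
        refine h2 ?_ (inv_ne_zero hz0)
        rw [dist_zero_right, norm_inv]
        exact inv_lt_of_inv_lt₀ hε hz
      have h4 : AnalyticAt ℂ ((fun w => S w⁻¹) ∘ fun w => w⁻¹) z :=
        AnalyticAt.comp (g := fun w => S w⁻¹) (f := fun w => w⁻¹) h3 (analyticAt_id.inv hz0)
      refine h4.congr (Eventually.of_forall fun w => ?_)
      simp only [Function.comp_apply, inv_inv]
    refine ⟨max (max R0 ε⁻¹) c.r0, fun z hz => ?_⟩
    have hz1 : R0 < ‖z‖ := ((le_max_left _ _).trans (le_max_left _ _)).trans_lt hz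
    have hz2 : ε⁻¹ < ‖z‖ := ((le_max_right _ _).trans (le_max_left _ _)).trans_lt hz
    have hz3 : z ∈ Ext c.r0 := (le_max_right _ _).trans_lt hz
    have h5 : ∀ᶠ w in 𝓝[≠] z, c.X i.succ w = S w * c.X 0 w := by
      have h6 : ∀ᶠ w in 𝓝[≠] z, R0 < ‖w‖ :=
        nhdsWithin_le_nhds (continuous_norm.continuousAt.eventually_const_lt hz1)
      filter_upwards [c.U_punct hz3, h6] with w hw hw2
      have h7 := hR0 w hw hw2
      unfold Curve.monf at h7
      rw [Finset.prod_eq_single i] at h7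
      · rw [Pi.single_eq_same, zpow_one] at h7
        rw [← h7]
        unfold Curve.xf
        rw [div_mul_cancel₀ _ (hw.2 0)]
      · intro j _ hj
        rw [Pi.single_eq_of_ne hj, zpow_zero]
      · intro h'
        exact absurd (Finset.mem_univ _) h'
    have h6 : ContinuousAt (c.X i.succ) z := (c.an _ z hz3).continuousAt
    have h7 : ContinuousAt (fun w => S w * c.X 0 w) z :=
      (hS2 z hz2).continuousAt.mul (c.an _ z hz3).continuousAt
    have h8 : Tendsto (c.X i.succ) (𝓝[≠] z) (𝓝 (c.X i.succ z)) := h6.mono_left nhdsWithin_le_nhds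
    have h9 : Tendsto (fun w => S w * c.X 0 w) (𝓝[≠] z) (𝓝 (S z * c.X 0 z)) :=
      h7.mono_left nhdsWithin_le_nhds
    exact tendsto_nhds_unique h8 (h9.congr' (h5.mono fun w hw => hw.symm))

end curve

/-- the statement for an ideal -/
def PP {N r : ℕ} (F : Fin r → Lau N) (e : Fin r → ℕ) (I : Ideal (Lau N)) : Prop :=
  ∃ m0 : ℕ, ∀ m, m0 ≤ m → (∀ j, e j ≠ 0 → e j ∣ m) → ∀ c : Curve N, AdmG F e m c →
    (∀ g ∈ I, c.ev g = 0) →
    ExtC c ∨ {z | z ∈ c.U ∧ ¬ OrbPt I F e (fun i => c.xf i z)}.Countable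

theorem ev_sup {N : ℕ} (c : Curve N) {I : Ideal (Lau N)} (hV : ∀ g ∈ I, c.ev g = 0) {a : Lau N}
    (ha : c.ev a = 0) : ∀ g ∈ I ⊔ Ideal.span {a}, c.ev g = 0 := by
  intro g hg
  obtain ⟨g1, hg1, g2, hg2, rfl⟩ := Submodule.mem_sup.1 hg
  obtain ⟨b, rfl⟩ := Ideal.mem_span_singleton'.1 hg2
  rw [map_add, map_mul, hV g1 hg1, ha, mul_zero, add_zero]

theorem prime_caseP (hP : St_prime) {N r : ℕ} (F : Fin r → Lau N) (e : Fin r → ℕ)
    (I : Ideal (Lau N)) (hI : I.IsPrime) (ih : ∀ J, I < J → PP F e J) : PP F e I := by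
  classical
  obtain ⟨K, i1, i2, x, hx⟩ := exists_generic I
  let F' : Fin r → Lau N := fun j => if F j ∈ I then 1 else F j
  have hF' : ∀ j, ep x (F' j) ≠ 0 := by
    intro j
    show ep x (if F j ∈ I then 1 else F j) ≠ 0
    split_ifs with h
    · rw [map_one]
      exact one_ne_zero
    · exact fun h0 => h ((hx _).1 h0)
  obtain ⟨Γ, A, D, S, a, m1, G, hSat, hG, hhom, hj, hcur⟩ := hP N r K x F' e hF'
  have hGI : G ∉ I := fun h => hG ((hx G).2 h)
  have hlt : I < I ⊔ Ideal.span {G} := by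
    refine lt_of_le_of_ne le_sup_left fun h => hGI ?_
    rw [h]
    exact Ideal.mem_sup_right (Ideal.mem_span_singleton_self G)
  obtain ⟨m2, h2⟩ := ih _ hlt
  refine ⟨max m1 m2, fun m hm hdiv c hU hV => ?_⟩
  by_cases hVG : c.ev G = 0
  · rcases h2 m ((le_max_right _ _).trans hm) hdiv c hU (ev_sup c hV hVG) with h | h
    · exact Or.inl h
    · right
      refine h.mono ?_
      rintro z ⟨hz1, hz2⟩
      exact ⟨hz1, fun h => hz2 (orb_mono le_sup_left h)⟩
  have hM := hcur m ((le_max_left _ _).trans hm) hdiv c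
    (adm_one c hU fun j => by
      show (if F j ∈ I then 1 else F j) = F j ∨ (if F j ∈ I then 1 else F j) = 1
      split_ifs
      · exact Or.inr rfl
      · exact Or.inl rfl)
    (fun g hg => hV g ((hx g).1 hg)) hVG
  by_cases htop : Γ = ⊤
  · left
    refine extC_of c fun γ => hM γ ?_
    rw [htop]
    exact Submodule.mem_top
  right
  obtain ⟨l, hl0, hl⟩ := exists_func hSat htop
  refine (val_zeros c hVG).mono ?_
  rintro z ⟨hzU, hzO⟩
  refine ⟨hzU, ?_⟩
  by_contra hcon
  apply hzO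
  have hval : ∀ g, c.val (c.ev g) z = lev g (fun i => c.xf i z) := fun g => val_ev c g hzU
  have hGz : lev G (fun i => c.xf i z) ≠ 0 := by
    rw [← hval]
    exact hcon
  set x0 : Fin N → ℂ := fun i => c.xf i z with hx0
  have hx0ne : ∀ i, x0 i ≠ 0 := fun i => c.xf_ne i hzU
  have hvan : ∀ g ∈ I, ∀ s : ℂ, s ≠ 0 → lev g (fun i => s ^ l i * x0 i) = 0 := by
    intro g hg s hs
    refine lev_orbit hl hx0ne g (fun q => ?_) hs
    rw [← hval, hV _ ((hx _).1 (hhom g ((hx g).2 hg) q)), val_zero]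
  refine ⟨l, hl0, hvan, fun j => ?_⟩
  by_cases hFj : F j ∈ I
  · exact Or.inl (hvan _ hFj)
  · right
    obtain ⟨b1, b2, b3, b4, b5, b6⟩ := hj j
    have hF'j : F' j = F j := if_neg hFj
    rw [hF'j] at b6
    have hdvd : ∀ T : Lau N, T ∣ G → lev T x0 ≠ 0 := by
      rintro T ⟨T', rfl⟩ h0
      rw [lev_mul _ _ hx0ne, h0, zero_mul] at hGz
      exact hGz rfl
    refine orbit_rel hl hx0ne b1 b2 (hdvd _ b3) (hdvd _ b4) (hdvd _ b5) (a := a j) fun s hs => ?_
    have hy : ∀ i, s ^ l i * x0 i ≠ 0 := fun i => mul_ne_zero (zpow_ne_zero _ hs) (hx0ne i)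
    have h3 : D j * F j - A j * AddMonoidAlgebra.single (a j) 1 * S j ^ e j ∈ I := by
      rw [← hx, map_sub, b6, sub_self]
    have h4 := hvan _ h3 s hs
    rw [sub_eq_add_neg, ← neg_one_mul, lev_add, lev_mul (-1) _ hy] at h4
    have h5 : lev (-1 : Lau N) (fun i => s ^ l i * x0 i) = -1 := by
      have h6 : lev ((-1 : Lau N) + 1) (fun i => s ^ l i * x0 i) = 0 := by
        rw [neg_add_cancel, lev_zero]
      rw [lev_add, lev_one hy] at h6
      linear_combination h6
    rw [h5] at h4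
    linear_combination h4

theorem all_casesP (hP : St_prime) {N r : ℕ} (F : Fin r → Lau N) (e : Fin r → ℕ)
    (I : Ideal (Lau N)) : PP F e I := by
  induction I using (wellFounded_gt (α := Ideal (Lau N))).induction with
  | _ I ih =>
  by_cases htop : I = ⊤
  · refine ⟨0, fun m _ _ c hU hV => ?_⟩
    exfalso
    have h1 := hV 1 (by rw [htop]; exact Submodule.mem_top)
    rw [map_one] at h1
    have := (Pool.Agent.Y192.OG.a_ring N c).2.1
    exact one_ne_zero h1
  by_cases hI : I.IsPrime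
  · exact prime_caseP hP F e I hI fun J hJ => ih J hJ
  · rw [Ideal.not_isPrime_iff] at hI
    rcases hI with hI | ⟨a, ha, b, hb, hab⟩
    · exact absurd hI htop
    have hlt : ∀ c, c ∉ I → I < I ⊔ Ideal.span {c} := by
      intro c hc
      refine lt_of_le_of_ne le_sup_left fun h => hc ?_
      rw [h]
      exact Ideal.mem_sup_right (Ideal.mem_span_singleton_self c)
    obtain ⟨m1, h1⟩ := ih _ (hlt a ha)
    obtain ⟨m2, h2⟩ := ih _ (hlt b hb)
    refine ⟨max m1 m2, fun m hm hdiv c hU hV => ?_⟩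
    have h3 := hV _ hab
    rw [map_mul] at h3
    rcases (Pool.Agent.Y192.OG.a_ring N c).1 _ _ h3 with h | h
    · rcases h1 m ((le_max_left _ _).trans hm) hdiv c hU (ev_sup c hV h) with h' | h'
      · exact Or.inl h'
      · right
        refine h'.mono ?_
        rintro z ⟨hz1, hz2⟩
        exact ⟨hz1, fun h => hz2 (orb_mono le_sup_left h)⟩
    · rcases h2 m ((le_max_right _ _).trans hm) hdiv c hU (ev_sup c hV h) with h' | h'
      · exact Or.inl h'
      · right
        refine h'.mono ?_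
        rintro z ⟨hz1, hz2⟩
        exact ⟨hz1, fun h => hz2 (orb_mono le_sup_left h)⟩

/-- curves near infinity in closed subsets of tori -/
theorem t_coreP (hP : St_prime) : St_coreP := fun _ _ I F e => all_casesP hP F e I

end Pool.Agent.Y32.KP
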