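import Pool.Agent.Y32.KP.GmOrb
import Pool.Agent.Y32.KP.GmExt
import Pool.Agent.Y32.KP.CoreP
import Pool.Agent.H70KG.A3

/-!
Punctured discs in covers of projective varieties (helper32, job KP2 of helper192).
-/

set_option autoImplicit false

namespace Pool.Agent.Y32.KP

open MvPolynomial Metric Filter Topology Pool.Agent.Y192.OG Pool.Agent.Y192.KC
open Pool.Agent.W603.BP Pool.Agent.W601.PH Pool.Agent.H70KG

theorem zeros_PB {f : ℂ → ℂ} (hf : AnalyticOnNhd ℂ f (PB 1)) (hne : ∃ z ∈ PB 1, f z ≠ 0) :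
    {z | z ∈ PB 1 ∧ f z = 0}.Countable := by
  refine (HereditarilyLindelofSpace.isLindelof _).countable_of_isDiscrete ?_
  rw [isDiscrete_iff_nhdsNE]
  intro z hz
  rw [← disjoint_iff, Filter.disjoint_principal_right]
  rcases (hf z hz.1).eventually_eq_zero_or_eventually_ne_zero with h | h
  · exfalso
    obtain ⟨w, hw1, hw2⟩ := hne
    exact hw2 (hf.eqOn_zero_of_preconnected_of_eventuallyEq_zero (PB_preconn one_pos) hz.1 h hw1)
  · filter_upwards [h] with w hw
    exact fun h' => hw h'.2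

theorem t_gmD : St_coreP → St_gmD := by
  classical
  intro hcore n r X
  have hc : ∀ (N : ℕ) (ι : Fin (N + 1) → Fin (n + 1)), ∃ m0 : ℕ, ∀ m, m0 ≤ m →
      (∀ j, eG X j ≠ 0 → eG X j ∣ m) → ∀ c : Curve N, AdmG (FG X ι) (eG X) m c →
      (∀ g ∈ Ideal.span ((fun f => laur (res ι f)) '' X.E), c.ev g = 0) →
      ExtC c ∨ {z | z ∈ c.U ∧ ¬ OrbPt (Ideal.span ((fun f => laur (res ι f)) '' X.E))
        (FG X ι) (eG X) (fun i => c.xf i z)}.Countable := fun N ι =>
    hcore N (r + 1) _ (FG X ι) (eG X)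
  choose mm hmm using hc
  refine ⟨max 1 ((Finset.range (n + 1)).sup fun N => Finset.univ.sup fun ι => mm N ι),
    fun m hm he u v huv => ?_⟩
  have hm0 : 0 < m := lt_of_lt_of_le one_pos ((le_max_left _ _).trans hm)
  have hu := fun j => an_of_diffOn huv.diffu j
  have hv : ∀ j, AnalyticOnNhd ℂ (fun z => v z j) (PB 1) := by
    intro j z hz
    have h1 : DifferentiableOn ℂ (fun w => v w j) (ball 0 1 \ {0}) := by
      intro z hz
      exact (differentiableWithinAt_pi.mp (huv.diffv z hz)) j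
    exact h1.analyticAt ((isOpen_ball.sdiff isClosed_singleton).mem_nhds (mem_disc.mpr hz))
  have hmem : ∀ z ∈ PB 1, X.Pt m (u z) (v z) := fun z hz => huv.mem z (mem_disc.mpr hz)
  have hne : ∀ z ∈ PB 1, u z ≠ 0 := fun z hz => (hmem z hz).1.1
  have hinv : ∀ z ∈ Ext 1, z⁻¹ ∈ PB 1 := fun z hz =>
    inv_mem_PB one_pos (by rw [inv_one]; exact hz)
  have hinv' : ∀ w ∈ PB 1, w⁻¹ ∈ Ext 1 := fun w hw => by
    have := inv_mem_Ext hw
    rwa [inv_one] at this
  have hz0 : ∀ z ∈ Ext 1, z ≠ 0 := fun z hz => ext_ne_zero zero_le_one hz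
  -- the coordinates which are not identically zero
  set T : Finset (Fin (n + 1)) := Finset.univ.filter fun i => ∃ z ∈ PB 1, u z i ≠ 0 with hT
  have hTne : T.Nonempty := by
    obtain ⟨z, hz⟩ := PB_nonempty one_pos
    by_contra hcon
    apply hne z hz
    funext i
    by_contra hi
    exact hcon ⟨i, Finset.mem_filter.mpr ⟨Finset.mem_univ i, z, hz, hi⟩⟩
  obtain ⟨N, hN⟩ : ∃ N, T.card = N + 1 := ⟨T.card - 1, by
    have := Finset.card_pos.mpr hTne
    omega⟩
  have hNn : N ≤ n := by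
    have := Finset.card_le_univ T
    rw [hN, Fintype.card_fin] at this
    omega
  obtain ⟨ι, hιinj, hιT⟩ : ∃ ι : Fin (N + 1) → Fin (n + 1), Function.Injective ι ∧
      ∀ i, (∃ k, ι k = i) ↔ i ∈ T := by
    refine ⟨fun k => T.orderEmbOfFin hN k, (T.orderEmbOfFin hN).injective, fun i => ?_⟩
    have := T.range_orderEmbOfFin hN
    rw [← Finset.mem_coe, ← this]
    rfl
  have hιne : ∀ k, ∃ z ∈ PB 1, u z (ι k) ≠ 0 := fun k =>
    (Finset.mem_filter.mp ((hιT _).mp ⟨k, rfl⟩)).2
  have hoff : ∀ z ∈ PB 1, ∀ i, (¬ ∃ k, ι k = i) → u z i = 0 := by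
    intro z hz i hi
    by_contra h
    exact hi ((hιT i).mpr (Finset.mem_filter.mpr ⟨Finset.mem_univ i, z, hz, h⟩))
  have hmN : mm N ι ≤ m := by
    refine le_trans ?_ ((le_max_right _ _).trans hm)
    refine le_trans ?_ (Finset.le_sup (f := fun N => Finset.univ.sup fun ι => mm N ι)
      (Finset.mem_range.mpr (Nat.lt_succ_of_le hNn)))
    exact Finset.le_sup (f := fun ι => mm N ι) (Finset.mem_univ ι)
  -- the curve
  let c : Curve N :=
    { r0 := 1
      X := fun i z => u z⁻¹ (ι i) ^ m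
      hr0 := le_rfl
      an := fun i z hz => ((hu (ι i) z⁻¹ (hinv z hz)).comp_of_eq
        (analyticAt_inv (hz0 z hz)) rfl).fun_pow m
      ncz := by
        intro z hz
        by_contra hcon
        push Not at hcon
        apply hne _ (hinv z hz)
        funext i
        by_cases hi : ∃ k, ι k = i
        · obtain ⟨k, rfl⟩ := hi
          exact (pow_eq_zero_iff hm0.ne').mp (hcon k)
        · exact hoff _ (hinv z hz) i hi
      nz := by
        intro i
        obtain ⟨p, hp, hp1⟩ := hιne i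
        refine ⟨p⁻¹, hinv' p hp, ?_⟩
        simp only [inv_inv]
        exact pow_ne_zero _ hp1 }
  have hcX : ∀ i z, c.X i z = u z⁻¹ (ι i) ^ m := fun i z => rfl
  have hval : ∀ (g : Lau N) (z : ℂ), z ∈ c.U →
      c.val (c.ev g) z = lev g (tor fun a => u z⁻¹ (ι a) ^ m) := by
    intro g z hz
    rw [val_ev c g hz]
    rfl
  -- values of forms
  have hform : ∀ y ∈ c.U, ∀ (f : MvPolynomial (Fin (n + 1)) ℂ) (k : ℕ), f.IsHomogeneous k →
      eval (fun i => u y⁻¹ i ^ m) f
        = (u y⁻¹ (ι 0) ^ m) ^ k * c.val (c.ev (laur (res ι f))) y := by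
    intro y hy f k hf
    rw [hval _ y hy]
    refine evalkey (w := fun i => u y⁻¹ i ^ m) hf (fun i hi => ?_) fun a => hy.2 a
    rw [hoff _ (hinv y hy.1) i hi, zero_pow hm0.ne']
  have hcv0 : ∀ z, c.val 0 z = 0 := fun z => Pool.Agent.Y220.KG.val_zero' c z
  -- the ideal
  have hker : ∀ g ∈ Ideal.span ((fun f => laur (res ι f)) '' X.E), c.ev g = 0 := by
    intro g hg
    induction hg using Submodule.span_induction with
    | mem g hg =>
      obtain ⟨f, hf, rfl⟩ := hg
      obtain ⟨k, hk⟩ := X.hE f hf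
      apply c.val_inj
      intro y hy
      have h1 := hform y hy f k hk
      rw [(hmem _ (hinv y hy.1)).1.2.1 f hf] at h1
      rw [hcv0]
      exact (mul_eq_zero.mp h1.symm).resolve_left (pow_ne_zero _ (hy.2 0))
    | zero => rw [map_zero]
    | add a b _ _ ha hb => rw [map_add, ha, hb, add_zero]
    | smul a b _ hb => rw [smul_eq_mul, map_mul, hb, mul_zero]
  -- analytic functions
  have hui : ∀ i, ∀ z ∈ Ext 1, AnalyticAt ℂ (fun y => u y⁻¹ i) z := fun i z hz =>
    (hu i z⁻¹ (hinv z hz)).comp_of_eq (analyticAt_inv (hz0 z hz)) rfl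
  have hvj : ∀ j, ∀ z ∈ Ext 1, AnalyticAt ℂ (fun y => v y⁻¹ j) z := fun j z hz =>
    (hv j z⁻¹ (hinv z hz)).comp_of_eq (analyticAt_inv (hz0 z hz)) rfl
  have ho0 : ∀ z ∈ Ext 1, ∃ a : ℤ, meromorphicOrderAt (fun y => u y⁻¹ (ι 0)) z = a := by
    intro z hz
    have h1 : meromorphicOrderAt (fun y => u y⁻¹ (ι 0)) z ≠ ⊤ := by
      rw [meromorphicOrderAt_ne_top_iff_eventually_ne_zero (hui _ z hz).meromorphicAt]
      filter_upwards [c.X_punct 0 hz] with y hy h0
      apply hy
      rw [hcX, h0, zero_pow hm0.ne']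
    exact ⟨_, (WithTop.coe_untop _ h1).symm⟩
  have hevan : ∀ (f : MvPolynomial (Fin (n + 1)) ℂ), ∀ z ∈ Ext 1,
      AnalyticAt ℂ (fun y => eval (fun i => u y⁻¹ i ^ m) f) z := by
    intro f z hz
    have h3 : (fun y => eval (fun i => u y⁻¹ i ^ m) f) = fun y => aeval (fun i => u y⁻¹ i ^ m) f := by
      funext y
      rw [aeval_eq_eval]
    rw [h3]
    exact AnalyticAt.aeval_mvPolynomial (fun i => (hui i z hz).fun_pow m) f
  have hord : ∀ (f : MvPolynomial (Fin (n + 1)) ℂ) (k : ℕ), f.IsHomogeneous k → ∀ z ∈ Ext 1,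
      ∀ a : ℤ, meromorphicOrderAt (fun y => u y⁻¹ (ι 0)) z = a →
      c.ord z (c.ev (laur (res ι f))) =
        meromorphicOrderAt (fun y => eval (fun i => u y⁻¹ i ^ m) f) z
        - ((m * k : ℕ) : ℤ) * a := by
    intro f k hf z hz a ha
    have h1 : c.val (c.ev (laur (res ι f))) =ᶠ[𝓝[≠] z]
        fun y => eval (fun i => u y⁻¹ i ^ m) f / u y⁻¹ (ι 0) ^ (m * k) := by
      filter_upwards [c.U_punct hz] with y hy
      have h5 : u y⁻¹ (ι 0) ^ (m * k) ≠ 0 := by
        rw [pow_mul]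
        exact pow_ne_zero _ (hy.2 0)
      rw [hform y hy f k hf, ← pow_mul, mul_div_cancel_left₀ _ h5]
    unfold Curve.ord
    rw [meromorphicOrderAt_congr h1, fun_meromorphicOrderAt_div (hevan f z hz).meromorphicAt
      ((hui _ z hz).meromorphicAt.fun_pow _), fun_meromorphicOrderAt_pow (hui _ z hz).meromorphicAt,
      ha]
    rfl
  have hadm : AdmG (FG X ι) (eG X) m c := by
    refine ⟨fun i z hz => ?_, fun j => ?_⟩
    · have hz1 : z ∈ Ext 1 := hz
      have h1 : analyticOrderAt (c.X i) z = m • analyticOrderAt (fun y => u y⁻¹ (ι i)) z :=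
        analyticOrderAt_pow (hui _ z hz1) m
      unfold Curve.oX
      rw [h1]
      have h2 : (m • analyticOrderAt (fun y => u y⁻¹ (ι i)) z).toNat
          = m * (analyticOrderAt (fun y => u y⁻¹ (ι i)) z).toNat := by
        rw [nsmul_eq_mul, ENat.toNat_mul, ENat.toNat_natCast]
      rw [h2]
      exact ⟨_, by push_cast; rfl⟩
    · refine Fin.cases ?_ (fun j => ?_) j
      · intro _ z hz
        have hz1 : z ∈ Ext 1 := hz
        obtain ⟨a, ha⟩ := ho0 z hz1
        have h1 : c.ord z (c.ev (FG X ι 0)) = _ := hord X.G X.q X.hG z hz1 a ha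
        have h2 : meromorphicOrderAt (fun y => eval (fun i => u y⁻¹ i ^ m) X.G) z = 0 := by
          have h4 := hevan X.G z hz1
          rw [h4.meromorphicOrderAt_eq, h4.analyticOrderAt_eq_zero.mpr (hmem _ (hinv z hz1)).2]
          rfl
        refine ⟨-(X.q * a), ?_⟩
        rw [h1, h2]
        have h5 : md m (eG X 0) = m := if_pos rfl
        rw [h5, ← WithTop.coe_zero]
        rw [← WithTop.coe_mul, ← WithTop.LinearOrderedAddCommGroup.coe_sub]
        congr 1
        push_cast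
        ring
      · intro hj z hz
        have hz1 : z ∈ Ext 1 := hz
        obtain ⟨a, ha⟩ := ho0 z hz1
        have h1 : c.ord z (c.ev (FG X ι j.succ)) = _ := hord (X.F j) (X.d j) (X.hF j) z hz1 a ha
        have h2 : (fun y => eval (fun i => u y⁻¹ i ^ m) (X.F j)) =ᶠ[𝓝[≠] z]
            fun y => v y⁻¹ j ^ X.e j := by
          filter_upwards [nhdsWithin_le_nhds ((Ext_open 1).mem_nhds hz1)] with y hy
          exact ((hmem _ (hinv y hy)).1.2.2 j).symm
        rw [meromorphicOrderAt_congr h2,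
          fun_meromorphicOrderAt_pow (hvj j z hz1).meromorphicAt] at h1
        have h3 : meromorphicOrderAt (fun y => v y⁻¹ j) z ≠ ⊤ := by
          intro h4
          apply hj
          have h5 : ∀ y ∈ Ext 1, v y⁻¹ j = 0 := by
            have h6 : AnalyticOnNhd ℂ (fun y => v y⁻¹ j) (Ext 1) := fun y hy => hvj j y hy
            rw [meromorphicOrderAt_eq_top_iff] at h4
            exact h6.eqOn_zero_of_preconnected_of_frequently_eq_zero (Ext_preconn one_pos) hz1
              h4.frequently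
          apply c.val_inj
          intro y hy
          have h7 := hform y hy (X.F j) _ (X.hF j)
          rw [← (hmem _ (hinv y hy.1)).1.2.2 j, h5 y hy.1, zero_pow (X.he j).ne'] at h7
          rw [hcv0]
          exact (mul_eq_zero.mp h7.symm).resolve_left (pow_ne_zero _ (hy.2 0))
        obtain ⟨b, hb⟩ := WithTop.ne_top_iff_exists.mp h3
        have h5 : md m (eG X j.succ) = X.e j := if_neg (X.he j).ne'
        obtain ⟨q, hq⟩ := he j
        refine ⟨b - q * X.d j * a, ?_⟩
        rw [h1, ← hb, h5]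
        have h6 : ((X.e j : ℕ) : WithTop ℤ) = (((X.e j : ℕ) : ℤ) : WithTop ℤ) := rfl
        rw [h6, ← WithTop.coe_mul, ← WithTop.coe_mul,
          ← WithTop.LinearOrderedAddCommGroup.coe_sub]
        congr 1
        rw [hq]
        push_cast
        ring
  rcases hmm N ι m hmN (fun j => Fin.cases (fun h => absurd rfl h) (fun j _ => he j) j) c hadm
    hker with hE | hC
  · left
    have hrel : ∀ j, MRel (fun z => u z j ^ m) (fun z => u z (ι 0) ^ m) := by
      intro j
      by_cases hj : ∃ k, ι k = j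
      · obtain ⟨k, rfl⟩ := hj
        obtain ⟨S, hS, R0, hR⟩ := hE k
        refine ⟨fun w => S w⁻¹, hS, ?_⟩
        rw [ev_iff]
        have hR1pos : 0 < max R0 1 := lt_of_lt_of_le one_pos (le_max_right _ _)
        refine ⟨(max R0 1)⁻¹, inv_pos.mpr hR1pos, fun w hw => ?_⟩
        have hw' : max R0 1 < ‖w⁻¹‖ := by
          have := inv_mem_Ext hw
          rwa [inv_inv] at this
        have h1 := hR w⁻¹ (lt_of_le_of_lt (le_max_left _ _) hw')
        rw [hcX, hcX, inv_inv] at h1
        exact h1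
      · refine ⟨fun _ => 0, MeromorphicAt.const 0 0, ?_⟩
        filter_upwards [PB_mem one_pos] with w hw
        rw [hoff w hw j hj, zero_pow hm0.ne', zero_mul]
    have hn0 : Nz (fun z => u z (ι 0)) := by
      intro h1
      obtain ⟨δ, hδ, h2⟩ := ev_iff.mp h1
      obtain ⟨y, hy⟩ := Filter.nonempty_of_mem (PB_mem (lt_min hδ one_pos))
      have hy1 : y ∈ PB 1 := PB_mono (min_le_right _ _) hy
      have h3 : (fun z => u z (ι 0)) =ᶠ[𝓝 y] 0 := by
        filter_upwards [(PB_open _).mem_nhds hy] with z hz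
        exact h2 z (PB_mono (min_le_left _ _) hz)
      obtain ⟨p, hp, hp1⟩ := hιne 0
      exact hp1 ((hu (ι 0)).eqOn_zero_of_preconnected_of_eventuallyEq_zero (PB_preconn one_pos)
        hy1 h3 hp)
    exact extends_coverL X he huv.diffu huv.diffv (fun z hz => (huv.mem z hz).1.1)
      (fun z hz j => (huv.mem z hz).1.2.2 j) (extends_rootL hm0 hu hne (ι 0) hn0 hrel)
  · right
    have hzeros : (⋃ a, {z | z ∈ PB 1 ∧ u z (ι a) = 0}).Countable :=
      Set.countable_iUnion fun a => zeros_PB (hu (ι a)) (hιne a)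
    refine ((hC.image fun z => z⁻¹).union hzeros).mono ?_
    rintro z ⟨hz1, hz2⟩
    have hz3 : z ∈ PB 1 := mem_disc.mp hz1
    by_cases h0 : ∃ a, u z (ι a) = 0
    · right
      obtain ⟨a, ha⟩ := h0
      exact Set.mem_iUnion.mpr ⟨a, hz3, ha⟩
    · push Not at h0
      left
      refine ⟨z⁻¹, ⟨⟨hinv' z hz3, fun i => ?_⟩, fun hO => hz2 ?_⟩, inv_inv z⟩
      · rw [hcX, inv_inv]
        exact pow_ne_zero _ (h0 i)
      · refine gm_of_orb X hm0 he hιinj (hoff z hz3) h0 (hmem z hz3) ?_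
        have h1 : (fun i => c.xf i z⁻¹) = tor fun a => u z (ι a) ^ m := by
          funext i
          show c.X i.succ z⁻¹ / c.X 0 z⁻¹ = u z (ι i.succ) ^ m / u z (ι 0) ^ m
          rw [hcX, hcX, inv_inv]
        rw [← h1]
        exact hO

end Pool.Agent.Y32.KP
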