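import Pool.Agent.Y192.KC.PStm
import Pool.Agent.H70KG.A2

/-!
The image of the multiplicative group through a point of an orbit (helper32, job KP2 of helper192,
after `Pool.Agent.H70KG.rat_of_orb`).
-/

set_option autoImplicit false

namespace Pool.Agent.Y32.KP

open MvPolynomial Pool.Agent.Y192.OG Pool.Agent.Y192.KC Pool.Agent.H70KG

variable {N n r : ℕ}

/-- the functions for the curves -/
noncomputable def FG (X : LProj n r) (ι : Fin (N + 1) → Fin (n + 1)) : Fin (r + 1) → Lau N :=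
  Fin.cons (laur (res ι X.G)) fun j => laur (res ι (X.F j))

/-- the multiplicities -/
def eG (X : LProj n r) : Fin (r + 1) → ℕ := Fin.cons 0 X.e

theorem FG_zero (X : LProj n r) (ι : Fin (N + 1) → Fin (n + 1)) :
    FG X ι 0 = laur (res ι X.G) := rfl

theorem FG_succ (X : LProj n r) (ι : Fin (N + 1) → Fin (n + 1)) (j : Fin r) :
    FG X ι j.succ = laur (res ι (X.F j)) := rfl

theorem eG_zero (X : LProj n r) : eG X 0 = 0 := rfl

theorem eG_succ (X : LProj n r) (j : Fin r) : eG X j.succ = X.e j := rfl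

theorem gm_of_orb (X : LProj n r) {m : ℕ} (hm : 0 < m) (he : ∀ j, X.e j ∣ m)
    {ι : Fin (N + 1) → Fin (n + 1)} (hι : Function.Injective ι) {u : Fin (n + 1) → ℂ}
    {v : Fin r → ℂ} (hu0 : ∀ i, (¬ ∃ k, ι k = i) → u i = 0) (hu1 : ∀ a, u (ι a) ≠ 0)
    (hPt : X.Pt m u v)
    (hO : OrbPt (Ideal.span ((fun f => laur (res ι f)) '' X.E)) (FG X ι) (eG X)
      (tor fun a => u (ι a) ^ m)) : X.OnGm m u v := by
  classical
  obtain ⟨l, hl, hI, hFG⟩ := hO
  have hG := hFG 0
  have hF := fun j : Fin r => hFG j.succ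
  simp only [FG_zero, eG_zero, FG_succ, eG_succ] at hG hF
  set x0 : Fin N → ℂ := tor fun a => u (ι a) ^ m with hx0
  set l' : Fin (N + 1) → ℤ := Fin.cons 0 l with hl'
  obtain ⟨k0, hk0⟩ : ∃ k0, ∀ k, l' k0 ≤ l' k := Finite.exists_min l'
  have hl0 : l' 0 = 0 := Fin.cons_zero _ _
  have hls : ∀ i : Fin N, l' i.succ = l i := fun i => Fin.cons_succ _ _ _
  set c : ℕ := (-l' k0).toNat with hc
  have hc' : (c : ℤ) = -l' k0 := by
    rw [hc, Int.toNat_of_nonneg]
    have := hk0 0
    omega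
  set a : Fin (N + 1) → ℕ := fun k => (l' k - l' k0).toNat with ha
  have ha' : ∀ k, (a k : ℤ) = l' k + c := by
    intro k
    rw [ha]
    simp only
    rw [Int.toNat_of_nonneg, hc']
    · ring
    · have := hk0 k
      omega
  have hak0 : a k0 = 0 := by
    have := ha' k0
    omega
  obtain ⟨p, hp, hp'⟩ : ∃ p : Fin (n + 1) → Polynomial ℂ,
      (∀ k, p (ι k) = Polynomial.C (u (ι k)) * Polynomial.X ^ a k) ∧
      ∀ i, (¬ ∃ k, ι k = i) → p i = 0 := by
    refine ⟨fun i => if h : ∃ k, ι k = i then Polynomial.C (u i) * Polynomial.X ^ a h.choose else 0,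
      fun k => ?_, fun i hi => ?_⟩
    · have h : ∃ k', ι k' = ι k := ⟨k, rfl⟩
      simp only
      rw [dif_pos h, hι h.choose_spec]
    · simp only
      rw [dif_neg hi]
  have hpe : ∀ k t, (p (ι k)).eval t = u (ι k) * t ^ a k := by
    intro k t
    rw [hp, Polynomial.eval_mul, Polynomial.eval_C, Polynomial.eval_pow, Polynomial.eval_X]
  set W : ℂ → Fin (n + 1) → ℂ := fun t i => (p i).eval t ^ m with hW
  have hW0 : ∀ t i, (¬ ∃ k, ι k = i) → W t i = 0 := by
    intro t i hi
    rw [hW]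
    simp only
    rw [hp' i hi, Polynomial.eval_zero, zero_pow hm.ne']
  have hW1 : ∀ t, t ≠ 0 → ∀ k, W t (ι k) = u (ι k) ^ m * ((t ^ m) ^ l' k * t ^ (c * m)) := by
    intro t ht k
    rw [hW]
    simp only
    rw [hpe, mul_pow]
    congr 1
    rw [← pow_mul, ← zpow_natCast t (a k * m), ← zpow_natCast t (c * m), ← zpow_natCast t m,
      ← zpow_mul, ← zpow_add₀ ht]
    congr 1
    push_cast
    rw [ha']
    ring
  have hW2 : ∀ t, t ≠ 0 → ∀ k, W t (ι k) ≠ 0 := by
    intro t ht k
    rw [hW1 t ht]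
    exact mul_ne_zero (pow_ne_zero _ (hu1 k)) (mul_ne_zero (zpow_ne_zero _ (pow_ne_zero _ ht))
      (pow_ne_zero _ ht))
  have hW3 : ∀ t, t ≠ 0 → (tor fun k => W t (ι k)) = fun i => (t ^ m) ^ l i * x0 i := by
    intro t ht
    funext i
    have h1 := pow_ne_zero m (hu1 0)
    have h2 : t ^ (c * m) ≠ 0 := pow_ne_zero _ ht
    change W t (ι i.succ) / W t (ι 0) = (t ^ m) ^ l i * (u (ι i.succ) ^ m / u (ι 0) ^ m)
    rw [hW1 t ht, hW1 t ht, hl0, hls, zpow_zero, one_mul]
    field_simp
  have hkey : ∀ t, t ≠ 0 → ∀ (f : MvPolynomial (Fin (n + 1)) ℂ) (k : ℕ), f.IsHomogeneous k →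
      eval (W t) f = (u (ι 0) ^ m * t ^ (c * m)) ^ k *
        lev (laur (res ι f)) (fun i => (t ^ m) ^ l i * x0 i) := by
    intro t ht f k hf
    rw [evalkey hf (hW0 t) (hW2 t ht), hW3 t ht, hW1 t ht, hl0, zpow_zero, one_mul]
  have hx00 : ∀ i, x0 i ≠ 0 := fun i =>
    div_ne_zero (pow_ne_zero _ (hu1 _)) (pow_ne_zero _ (hu1 _))
  have hpol : ∀ (f : MvPolynomial (Fin (n + 1)) ℂ) t,
      (aeval (fun i => p i ^ m) f : Polynomial ℂ).eval t = eval (W t) f := by
    intro f t
    induction f using MvPolynomial.induction_on with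
    | C a =>
      rw [aeval_C, eval_C]
      exact Polynomial.eval_C
    | add f g hf hg => rw [map_add, map_add, Polynomial.eval_add, hf, hg]
    | mul_X f i hf =>
      rw [map_mul, map_mul, Polynomial.eval_mul, hf, aeval_X, eval_X, Polynomial.eval_pow]
  have hW11 : W 1 = fun i => u i ^ m := by
    funext i
    by_cases hi : ∃ k, ι k = i
    · obtain ⟨k, rfl⟩ := hi
      rw [hW]
      simp only
      rw [hpe, one_pow, mul_one]
    · rw [hW0 1 i hi, hu0 i hi, zero_pow hm.ne']
  -- the coordinates `w`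
  have hs : ∀ j, ∃ s : Polynomial ℂ, (∀ t, s.eval t ^ X.e j = eval (W t) (X.F j)) ∧
      s.eval 1 = v j := by
    intro j
    have hvj : v j ^ X.e j = eval (W 1) (X.F j) := by
      rw [hW11]
      exact hPt.1.2.2 j
    rcases hF j with h0 | ⟨k, S, hS0, hF0, hS⟩
    · have h1 : (aeval (fun i => p i ^ m) (X.F j) : Polynomial ℂ) = 0 := by
        apply poly_ext
        intro t ht
        rw [hpol, hkey t ht _ _ (X.hF j), h0 (t ^ m) (pow_ne_zero _ ht), mul_zero,
          Polynomial.eval_zero]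
      have h2 : ∀ t, eval (W t) (X.F j) = 0 := by
        intro t
        rw [← hpol, h1, Polynomial.eval_zero]
      refine ⟨0, fun t => ?_, ?_⟩
      · rw [h2, Polynomial.eval_zero, zero_pow (X.he j).ne']
      · rw [h2] at hvj
        rw [Polynomial.eval_zero]
        exact (pow_eq_zero_iff (X.he j).ne' |>.mp hvj).symm
    · obtain ⟨m', hm'⟩ := he j
      obtain ⟨M, Q, hQ⟩ := lev_orbit S l m x0
      have he0 : X.e j ≠ 0 := (X.he j).ne'
      have hwt : X.e j * X.toProj.wt m j = m * X.d j := by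
        unfold Proj.wt
        exact Nat.mul_div_cancel' (Dvd.dvd.mul_right (he j) _)
      set K : ℤ := m' * k + c * X.toProj.wt m j with hK
      have hK2 : ((K.natAbs + K).toNat : ℤ) = K.natAbs + K := by
        rw [Int.toNat_of_nonneg]
        omega
      obtain ⟨Q2, hQ2⟩ : ∃ Q2 : Polynomial ℂ, Q2 = Polynomial.C (v j / lev S x0) *
        (Polynomial.X ^ (K.natAbs + K).toNat * Q) := ⟨_, rfl⟩
      obtain ⟨P, hP⟩ : ∃ P : Polynomial ℂ, P = aeval (fun i => p i ^ m) (X.F j) := ⟨_, rfl⟩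
      have h3 : Q2 ^ X.e j = (Polynomial.X ^ (M + K.natAbs)) ^ X.e j * P := by
        apply poly_ext
        intro t ht
        have h4 : Q2.eval t = t ^ (M + K.natAbs) * (v j / lev S x0 * t ^ K *
            lev S (fun i => (t ^ m) ^ l i * x0 i)) := by
          rw [hQ2, Polynomial.eval_mul, Polynomial.eval_mul, Polynomial.eval_C, Polynomial.eval_pow,
            Polynomial.eval_X, hQ t ht]
          have h5 : t ^ (K.natAbs + K).toNat = t ^ K.natAbs * t ^ K := by
            rw [← zpow_natCast, hK2, zpow_add₀ ht, zpow_natCast]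
          rw [h5, pow_add]
          ring
        have h6 := hS (t ^ m) (pow_ne_zero _ ht)
        have h7 : lev (laur (res ι (X.F j))) x0 * (u (ι 0) ^ m) ^ X.d j = v j ^ X.e j := by
          rw [hvj, hkey 1 one_ne_zero _ _ (X.hF j)]
          simp only [one_pow, one_zpow, one_mul, mul_one]
          ring
        have h8 : (t ^ K) ^ X.e j = (t ^ m) ^ k * (t ^ (c * m)) ^ X.d j := by
          rw [← zpow_natCast (t ^ K), ← zpow_mul, ← zpow_natCast t m, ← zpow_mul, ← pow_mul,
            ← zpow_natCast t (c * m * X.d j), ← zpow_add₀ ht]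
          congr 1
          push_cast
          have h9 : (X.e j : ℤ) * X.toProj.wt m j = m * X.d j := by exact_mod_cast hwt
          have h10 : (m : ℤ) = X.e j * m' := by exact_mod_cast hm'
          rw [hK]
          linear_combination (c : ℤ) * h9 - (k : ℤ) * h10
        rw [Polynomial.eval_pow, Polynomial.eval_mul, Polynomial.eval_pow, Polynomial.eval_pow,
          Polynomial.eval_X, hP, hpol, hkey t ht _ _ (X.hF j), h4, mul_pow, mul_pow, mul_pow, h8,
          div_pow, mul_pow]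
        have hS1 : lev S x0 ^ X.e j ≠ 0 := pow_ne_zero _ hS0
        field_simp
        rw [← h7]
        linear_combination (-((u (ι 0) ^ m) ^ X.d j)) * h6
      have h11 : Polynomial.X ^ (M + K.natAbs) ∣ Q2 :=
        (IsIntegrallyClosed.pow_dvd_pow_iff he0).mp ⟨P, h3⟩
      obtain ⟨R, hR⟩ := h11
      have h12 : R ^ X.e j = P := by
        rw [hR, mul_pow] at h3
        exact mul_left_cancel₀ (pow_ne_zero _ (pow_ne_zero _ Polynomial.X_ne_zero)) h3
      refine ⟨R, fun t => ?_, ?_⟩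
      · rw [← hpol, ← hP, ← h12, Polynomial.eval_pow]
      · have h13 : Q2.eval 1 = R.eval 1 := by
          rw [hR, Polynomial.eval_mul, Polynomial.eval_pow, Polynomial.eval_X, one_pow, one_mul]
        rw [← h13, hQ2, Polynomial.eval_mul, Polynomial.eval_mul, Polynomial.eval_C,
          Polynomial.eval_pow, Polynomial.eval_X, hQ 1 one_ne_zero]
        simp only [one_pow, one_zpow, one_mul]
        exact div_mul_cancel₀ _ hS0
  choose s hs1 hs2 using hs
  have hp1 : ∀ i, (p i).eval 1 = u i := by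
    intro i
    by_cases hi : ∃ k, ι k = i
    · obtain ⟨k, rfl⟩ := hi
      rw [hpe, one_pow, mul_one]
    · rw [hp' i hi, hu0 i hi, Polynomial.eval_zero]
  have hGt : ∀ t, t ≠ 0 → eval (W t) X.G ≠ 0 := by
    intro t ht
    have hG1 : lev (laur (res ι X.G)) x0 ≠ 0 := by
      intro h0
      have h1 := hkey 1 one_ne_zero X.G _ X.hG
      rw [hW11] at h1
      simp only [one_pow, one_zpow, one_mul, mul_one] at h1
      rw [h0, mul_zero] at h1
      exact hPt.2 h1
    rw [hkey t ht X.G _ X.hG]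
    refine mul_ne_zero (pow_ne_zero _ (mul_ne_zero (pow_ne_zero _ (hu1 0)) (pow_ne_zero _ ht))) ?_
    rcases hG with h0 | ⟨k, S, hS0, hF0, hS⟩
    · exfalso
      apply hG1
      have h1 := h0 1 one_ne_zero
      simp only [one_zpow, one_mul] at h1
      exact h1
    · have h1 := hS (t ^ m) (pow_ne_zero _ ht)
      rw [pow_zero, pow_zero, mul_one, mul_one] at h1
      rw [h1]
      exact mul_ne_zero (zpow_ne_zero _ (pow_ne_zero _ ht)) hG1
  refine ⟨p, s, ⟨fun z hz => ⟨⟨fun h => ?_, fun f hf => ?_, fun j => ?_⟩, hGt z hz⟩, ?_⟩, 1,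
    one_ne_zero, 1, one_ne_zero, fun i => ?_, fun j => ?_⟩
  · have h1 := congrFun h (ι k0)
    simp only [Pi.zero_apply] at h1
    rw [hpe, hak0, pow_zero, mul_one] at h1
    exact hu1 k0 h1
  · obtain ⟨k, hk⟩ := X.hE f hf
    have h1 : (aeval (fun i => p i ^ m) f : Polynomial ℂ) = 0 := by
      apply poly_ext
      intro t ht
      rw [hpol, hkey t ht _ _ hk, hI _ (Ideal.subset_span ⟨f, hf, rfl⟩) (t ^ m)
        (pow_ne_zero _ ht), mul_zero, Polynomial.eval_zero]
    have h2 := hpol f z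
    rw [h1, Polynomial.eval_zero] at h2
    exact h2.symm
  · exact hs1 j z
  · refine ⟨1, 2, one_ne_zero, two_ne_zero, ?_⟩
    rintro ⟨s', _, h1, _⟩
    have h2 : ∀ k, (2 : ℂ) ^ a k = s' := by
      intro k
      have h3 : (p (ι k)).eval 2 = s' * (p (ι k)).eval 1 := h1 (ι k)
      rw [hpe, hpe, one_pow, mul_one, mul_comm] at h3
      exact mul_right_cancel₀ (hu1 k) h3
    apply hl
    funext i
    have h4 : (2 : ℂ) ^ a i.succ = 2 ^ a 0 := by rw [h2, h2]
    have h5 : a i.succ = a 0 := by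
      have h6 : (2 : ℕ) ^ a i.succ = 2 ^ a 0 := by exact_mod_cast h4
      exact Nat.pow_right_injective le_rfl h6
    have h7 := ha' i.succ
    have h8 := ha' 0
    rw [hls] at h7
    rw [hl0] at h8
    rw [Pi.zero_apply]
    omega
  · rw [one_mul]
    exact (hp1 i).symm
  · rw [one_pow, one_mul]
    exact (hs2 j).symm

end Pool.Agent.Y32.KP
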